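import Pool.Agent.H56.G3.TI

/-!
# Row EZ of gs3_modules
-/

set_option autoImplicit false

open Finset Pool.Agent.H6.N4D Pool.Agent.H93.EB Pool.Agent.H93.GS Pool.Agent.H56.G3

namespace Pool.Agent.H51.GS3

theorem ioc_range (a : ℕ → ℂ) (k L : ℕ) :
    ∑ m ∈ Ioc k (k + L), a m = ∑ i ∈ range L, a (k + i + 1) := by
  induction L with
  | zero => simp
  | succ L ih =>
    rw [← Nat.add_assoc, sum_Ioc_succ_top (by omega), ih, sum_range_succ]

theorem slide (a : ℕ → ℂ) (N M n : ℕ) :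
    ∑ j ∈ range N, ∑ m ∈ Ioc (n + j) (n + j + M), a m =
      ∑ i ∈ range M, ∑ m ∈ Ioc (n + i) (n + i + N), a m := by
  have h1 : ∀ j ∈ range N, ∑ m ∈ Ioc (n + j) (n + j + M), a m =
      ∑ i ∈ range M, a (n + j + i + 1) := fun j _ => ioc_range a _ _
  have h2 : ∀ i ∈ range M, ∑ m ∈ Ioc (n + i) (n + i + N), a m =
      ∑ j ∈ range N, a (n + i + j + 1) := fun i _ => ioc_range a _ _
  rw [sum_congr rfl h1, sum_congr rfl h2, sum_comm]
  refine sum_congr rfl fun i _ => sum_congr rfl fun j _ => ?_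
  congr 1
  omega

theorem edge (a : ℕ → ℂ) (N n i : ℕ) :
    ‖∑ m ∈ Ioc (n + i) (n + i + N), a m - ∑ m ∈ Ioc n (n + N), a m‖ ≤
      ∑ m ∈ Ioc n (n + i), ‖a m‖ + ∑ m ∈ Ioc (n + N) (n + N + i), ‖a m‖ := by
  have h1 := sum_Ioc_consecutive a (Nat.le_add_right n i) (Nat.le_add_right (n + i) N)
  have h2 := sum_Ioc_consecutive a (Nat.le_add_right n N) (Nat.le_add_right (n + N) i)
  have h3 : n + i + N = n + N + i := by omega
  have h4 : ∑ m ∈ Ioc (n + i) (n + i + N), a m - ∑ m ∈ Ioc n (n + N), a m =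
      ∑ m ∈ Ioc (n + N) (n + N + i), a m - ∑ m ∈ Ioc n (n + i), a m := by
    rw [← h3] at h2
    rw [← h3]
    linear_combination h1 - h2
  rw [h4]
  refine (norm_sub_le _ _).trans ?_
  rw [add_comm]
  exact add_le_add (norm_sum_le _ _) (norm_sum_le _ _)

theorem card_mult (q k M : ℕ) (hq : 1 ≤ q) :
    q * ((Ioc k (k + M)).filter (fun m => q ∣ m)).card ≤ M + q := by
  have h1 : ((Ioc k (k + M)).filter (fun m => q ∣ m)).card ≤ (Ioc (k / q) ((k + M) / q)).card := by
    apply card_le_card_of_injOn (fun m => m / q)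
    · intro m hm
      rw [mem_coe, mem_filter, mem_Ioc] at hm
      obtain ⟨⟨h1, h2⟩, c, rfl⟩ := hm
      rw [mem_coe, mem_Ioc]
      have h3 : q * c / q = c := Nat.mul_div_cancel_left c hq
      simp only [h3]
      exact ⟨Nat.div_lt_of_lt_mul h1, by rw [← h3]; exact Nat.div_le_div_right h2⟩
    · intro m hm m' hm' h
      rw [mem_coe, mem_filter] at hm hm'
      obtain ⟨_, c, rfl⟩ := hm
      obtain ⟨_, c', rfl⟩ := hm'
      simp only [Nat.mul_div_cancel_left _ (show 0 < q from hq)] at h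
      rw [h]
  rw [Nat.card_Ioc] at h1
  have h2 : q * ((k + M) / q - k / q) ≤ M + q := by
    rw [Nat.mul_sub]
    have h3 := Nat.div_mul_le_self (k + M) q
    have h4 := Nat.div_add_mod k q
    have h5 := Nat.mod_lt k hq
    rw [mul_comm] at h3
    omega
  exact (Nat.mul_le_mul_left q h1).trans h2

theorem sumD (q k M : ℕ) (hq : 1 ≤ q) (hM : q ≤ M) :
    ∑ m ∈ Ioc k (k + M), |D q m| ≤ 3 * M := by
  have h1 : ∀ m ∈ Ioc k (k + M), |D q m| ≤ (if q ∣ m then (q : ℝ) else 0) + 1 := by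
    intro m _
    unfold D
    rw [abs_le]
    have h0 : (0 : ℝ) ≤ if q ∣ m then (q : ℝ) else 0 := by
      split_ifs
      · positivity
      · exact le_rfl
    constructor <;> linarith
  refine (sum_le_sum h1).trans ?_
  rw [sum_add_distrib, ← sum_filter, sum_const, sum_const, Nat.card_Ioc, nsmul_eq_mul,
    nsmul_eq_mul, mul_one, Nat.add_sub_cancel_left]
  have h2 := card_mult q k M hq
  have h3 : (q : ℝ) * (((Ioc k (k + M)).filter (fun m => q ∣ m)).card : ℝ) ≤ M + q := by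
    exact_mod_cast h2
  have h4 : (q : ℝ) ≤ M := by exact_mod_cast hM
  rw [mul_comm] at h3
  linarith

theorem pf_EZ : T_EZ := by
  intro lam q M N n α hl hq hqM hMN
  set a : ℕ → ℂ := fun m => (lam m : ℂ) * (D q m : ℂ) * ee (-(α * m)) * 1 with ha
  have hz : ∀ L k : ℕ, zz lam q L k α (fun _ => 1) = ‖(∑ m ∈ Ioc k (k + L), a m) / L‖ :=
    fun L k => rfl
  have hM0 : (0 : ℝ) < M := by exact_mod_cast lt_of_lt_of_le hq hqM
  have hN0 : (0 : ℝ) < N := lt_of_lt_of_le hM0 (by exact_mod_cast hMN)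
  have hMNr : (M : ℝ) ≤ N := by exact_mod_cast hMN
  have han : ∀ m, ‖a m‖ ≤ |D q m| := by
    intro m
    simp only [ha]
    rw [mul_one, norm_mul, norm_mul, norm_ee, mul_one, Complex.norm_real, Complex.norm_real,
      Real.norm_eq_abs, Real.norm_eq_abs]
    calc |lam m| * |D q m| ≤ 1 * |D q m| :=
          mul_le_mul_of_nonneg_right (hl m) (abs_nonneg _)
      _ = |D q m| := one_mul _
  have hint : ∀ k i : ℕ, i ≤ M → ∑ m ∈ Ioc k (k + i), ‖a m‖ ≤ 3 * M := by
    intro k i hi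
    refine le_trans ?_ (sumD q k M hq hqM)
    refine (sum_le_sum_of_subset_of_nonneg (Ioc_subset_Ioc_right (by omega))
      (fun _ _ _ => norm_nonneg _)).trans (sum_le_sum fun m _ => han m)
  have hmain : M * ‖∑ m ∈ Ioc n (n + N), a m‖ ≤
      ∑ j ∈ range N, ‖∑ m ∈ Ioc (n + j) (n + j + M), a m‖ + M * (6 * M) := by
    have h1 : (M : ℂ) * ∑ m ∈ Ioc n (n + N), a m =
        ∑ j ∈ range N, ∑ m ∈ Ioc (n + j) (n + j + M), a m -
          ∑ i ∈ range M, (∑ m ∈ Ioc (n + i) (n + i + N), a m - ∑ m ∈ Ioc n (n + N), a m) := by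
      rw [slide, ← sum_sub_distrib]
      simp only [sub_sub_cancel]
      rw [sum_const, card_range, nsmul_eq_mul]
    have h2 : (M : ℝ) * ‖∑ m ∈ Ioc n (n + N), a m‖ = ‖(M : ℂ) * ∑ m ∈ Ioc n (n + N), a m‖ := by
      rw [norm_mul, Complex.norm_natCast]
    rw [h2, h1]
    refine (norm_sub_le _ _).trans (add_le_add (norm_sum_le _ _) ?_)
    refine (norm_sum_le _ _).trans ?_
    calc ∑ i ∈ range M, ‖∑ m ∈ Ioc (n + i) (n + i + N), a m - ∑ m ∈ Ioc n (n + N), a m‖
        ≤ ∑ i ∈ range M, (6 * M : ℝ) := by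
          refine sum_le_sum fun i hi => ?_
          have hi' : i ≤ M := (mem_range.1 hi).le
          refine (edge a N n i).trans ?_
          have := hint n i hi'
          have := hint (n + N) i hi'
          linarith
      _ = M * (6 * M) := by rw [sum_const, card_range, nsmul_eq_mul]
  set z : ℕ → ℝ := fun j => zz lam q M (n + j) α (fun _ => 1) with hzd
  have hzj : ∀ j, ‖∑ m ∈ Ioc (n + j) (n + j + M), a m‖ = M * z j := by
    intro j
    simp only [hzd]
    rw [hz, norm_div, Complex.norm_natCast]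
    field_simp
  have hzN : ‖∑ m ∈ Ioc n (n + N), a m‖ = N * zz lam q N n α (fun _ => 1) := by
    rw [hz, norm_div, Complex.norm_natCast]
    field_simp
  simp only [hzj] at hmain
  rw [hzN, ← mul_sum] at hmain
  have h3 : N * zz lam q N n α (fun _ => 1) ≤ ∑ j ∈ range N, z j + 6 * M := by
    have : M * (N * zz lam q N n α (fun _ => 1)) ≤ M * (∑ j ∈ range N, z j + 6 * M) := by
      linarith
    exact le_of_mul_le_mul_left this hM0
  have h4 : zz lam q N n α (fun _ => 1) ≤ (∑ j ∈ range N, z j) / N + 6 * (M / N) := by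
    rw [← mul_div_assoc, ← add_div, le_div_iff₀ hN0, mul_comm]
    exact h3
  have hzz0 : 0 ≤ zz lam q N n α (fun _ => 1) := norm_nonneg _
  have hz0 : ∀ j, 0 ≤ z j := fun j => norm_nonneg _
  have hx0 : 0 ≤ (∑ j ∈ range N, z j) / N := by
    apply div_nonneg (sum_nonneg fun j _ => hz0 j) hN0.le
  have hr0 : (0 : ℝ) ≤ (M : ℝ) / N := by positivity
  have hr1 : (M : ℝ) / N ≤ 1 := by rw [div_le_one hN0]; exact hMNr
  have h5 : ((∑ j ∈ range N, z j) / N) ^ 2 ≤ (∑ j ∈ range N, z j ^ 2) / N := by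
    have h6 := sq_sum_le_card_mul_sum_sq (s := range N) (f := z)
    rw [card_range] at h6
    rw [div_pow, div_le_div_iff₀ (by positivity) hN0]
    nlinarith
  have hsl : sl N n (fun v => zz lam q M v α (fun _ => 1) ^ 2) = (∑ j ∈ range N, z j ^ 2) / N :=
    rfl
  rw [hsl]
  have h7 : zz lam q N n α (fun _ => 1) ^ 2 ≤
      ((∑ j ∈ range N, z j) / N + 6 * (M / N)) ^ 2 := pow_le_pow_left₀ hzz0 h4 2
  have h8 : ((M : ℝ) / N) ^ 2 ≤ M / N := by
    rw [sq]
    calc (M : ℝ) / N * (M / N) ≤ M / N * 1 := mul_le_mul_of_nonneg_left hr1 hr0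
      _ = M / N := mul_one _
  nlinarith [sq_nonneg ((∑ j ∈ range N, z j) / N - 6 * (M / N))]

end Pool.Agent.H51.GS3
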