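import Pool.Agent.H78.GS.TF3

/-!
# Row FRAS of gs3_modules
-/

set_option autoImplicit false

open Finset Pool.Agent.H6.N4D Pool.Agent.H78.GS

namespace Pool.Agent.H51.GS3

theorem pf_RAS : T_RAS := by
  intro b₀ b b' a a' hb hb0 hb' hb0' h
  obtain ⟨k, hk⟩ := exists_int ((a : ℝ) / b - (a' : ℝ) / b')
  refine ⟨k, ?_⟩
  have hbr : (0 : ℝ) < b := by exact_mod_cast hb
  have hbr' : (0 : ℝ) < b' := by exact_mod_cast hb'
  have h1 : (b : ℝ) ≤ b₀ := by exact_mod_cast hb0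
  have h2 : (b' : ℝ) ≤ b₀ := by exact_mod_cast hb0'
  have h0 : (0 : ℝ) < b₀ := lt_of_lt_of_le hbr h1
  rw [← hk] at h
  set d : ℝ := (a : ℝ) / b - (a' : ℝ) / b' - k with hd
  have h3 : (((a : ℤ) * b' - a' * b - k * b * b' : ℤ) : ℝ) = b * b' * d := by
    rw [hd]
    push_cast
    field_simp
  have h4 : |(((a : ℤ) * b' - a' * b - k * b * b' : ℤ) : ℝ)| < 1 := by
    rw [h3, abs_mul, abs_of_pos (mul_pos hbr hbr')]
    calc (b : ℝ) * b' * |d| < b * b' * (1 / (b₀ : ℝ) ^ 2) :=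
          mul_lt_mul_of_pos_left h (mul_pos hbr hbr')
      _ ≤ b₀ * b₀ * (1 / (b₀ : ℝ) ^ 2) := by
          apply mul_le_mul_of_nonneg_right _ (by positivity)
          exact mul_le_mul h1 h2 hbr'.le h0.le
      _ = 1 := by field_simp
  have h5 : ((a : ℤ) * b' - a' * b - k * b * b' : ℤ) = 0 := by
    rw [← Int.cast_abs] at h4
    have h6 : |((a : ℤ) * b' - a' * b - k * b * b' : ℤ)| < 1 := by exact_mod_cast h4
    exact Int.abs_lt_one_iff.1 h6
  rw [h5, Int.cast_zero] at h3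
  have h7 : d = 0 := by
    rcases mul_eq_zero.1 h3.symm with h8 | h8
    · exact absurd h8 (mul_pos hbr hbr').ne'
    · exact h8
  linarith

end Pool.Agent.H51.GS3
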